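import Pool.Agent.H47.FBLMain

set_option autoImplicit false

namespace Pool.Agent.Results.MP_43bafb_an.NormAttainment

open Pool.Agent.H47.FBL

universe u

/-- Let `E` be a real Banach space, `1 ≤ p < ∞`, let `(F, δ)` be the free `p`-convex Banach lattice
over `E`, let `x'` be a bounded functional on `E` and `φ` the real-valued lattice homomorphism on
`F` extending `x'`. Then `x'` attains its norm iff `φ` attains its norm. -/
theorem result :
    ∀ (E F : Type u) [NormedAddCommGroup E] [NormedSpace ℝ E] [CompleteSpace E]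
      [NormedAddCommGroup F] [NormedSpace ℝ F] [CompleteSpace F] [Lattice F]
      [IsOrderedAddMonoid F] [PosSMulMono ℝ F] [HasSolidNorm F]
      (p : ℝ) (_ : 1 ≤ p) (δ : E →L[ℝ] F) (_ : IsFreePConvex p δ)
      (x' : E →L[ℝ] ℝ) (φ : F →L[ℝ] ℝ) (_ : IsLatticeHom φ) (_ : ∀ x : E, φ (δ x) = x' x),
      (∃ x : E, ‖x‖ ≤ 1 ∧ x' x = ‖x'‖) ↔ (∃ f : F, ‖f‖ ≤ 1 ∧ φ f = ‖φ‖) := by
  intro E F _ _ _ _ _ _ _ _ _ _ p hp δ h x' φ hφ hφδ
  exact main hp h x' φ hφ hφδ

end Pool.Agent.Results.MP_43bafb_an.NormAttainment
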